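import Pool.Agent.H5.BC.Tail

/-! # Extending a biclique partition of an induced subgraph by stars -/

set_option autoImplicit false

open Finset Classical Filter Topology H2BC

namespace Pool.Agent.H5.BC

lemma bc_le_of {V : Type} (G : SimpleGraph V) {ι : Type} [Fintype ι] (A B : ι → Finset V)
    (h1 : ∀ i, (A i).Nonempty) (h2 : ∀ i, (B i).Nonempty) (h3 : ∀ i, Disjoint (A i) (B i))
    (h4 : ∀ i, ∀ x ∈ A i, ∀ y ∈ B i, G.Adj x y)
    (h5 : ∀ x y, G.Adj x y → ∃! i, (x ∈ A i ∧ y ∈ B i) ∨ (y ∈ A i ∧ x ∈ B i)) :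
    bc G ≤ Fintype.card ι := by
  let e := Fintype.equivFin ι
  refine Nat.sInf_le ⟨fun i => A (e.symm i), fun i => B (e.symm i), ?_⟩
  refine ⟨fun i => h1 _, fun i => h2 _, fun i => h3 _, fun i => h4 _, fun x y hxy => ?_⟩
  obtain ⟨i, hi, hu⟩ := h5 x y hxy
  refine ⟨e i, ?_, fun j hj => ?_⟩
  · simpa using hi
  · have := hu (e.symm j) hj
    rw [← this]; simp

lemma bc_le_induce {n : ℕ} (G : SimpleGraph (Fin n)) (S : Finset (Fin n)) :
    bc G ≤ bc (G.induce (S : Set (Fin n))) + (n - #S) := by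
  have hspec : ∃ A B : Fin (bc (G.induce (S : Set (Fin n)))) → Finset (S : Set (Fin n)),
      BicliquePartition (G.induce (S : Set (Fin n))) (bc (G.induce (S : Set (Fin n)))) A B := by
    have hne : {r : ℕ | ∃ A B : Fin r → Finset (S : Set (Fin n)),
        BicliquePartition (G.induce (S : Set (Fin n))) r A B}.Nonempty := by
      have ε : Fin (Fintype.card (G.induce (S : Set (Fin n))).edgeSet) ≃
        (G.induce (S : Set (Fin n))).edgeSet := (Fintype.equivFin _).symm
      have hout : ∀ i, s((ε i : Sym2 (S : Set (Fin n))).out.1, (ε i : Sym2 (S : Set (Fin n))).out.2) =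
          (ε i : Sym2 (S : Set (Fin n))) := fun i => Quot.out_eq _
      have hadj : ∀ i, (G.induce (S : Set (Fin n))).Adj (ε i : Sym2 (S : Set (Fin n))).out.1
          (ε i : Sym2 (S : Set (Fin n))).out.2 := by
        intro i
        rw [← SimpleGraph.mem_edgeSet, hout i]
        exact (ε i).2
      refine ⟨_, fun i => {(ε i : Sym2 (S : Set (Fin n))).out.1},
        fun i => {(ε i : Sym2 (S : Set (Fin n))).out.2}, ?_, ?_, ?_, ?_, ?_⟩
      · intro i; simp
      · intro i; simp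
      · intro i
        rw [Finset.disjoint_singleton]
        exact (hadj i).ne
      · intro i x hx y hy
        rw [Finset.mem_singleton] at hx hy
        rw [hx, hy]; exact hadj i
      · intro x y hxy
        have key : ∀ i, ((x ∈ ({(ε i : Sym2 (S : Set (Fin n))).out.1} : Finset (S : Set (Fin n))) ∧
            y ∈ ({(ε i : Sym2 (S : Set (Fin n))).out.2} : Finset (S : Set (Fin n)))) ∨
            (y ∈ ({(ε i : Sym2 (S : Set (Fin n))).out.1} : Finset (S : Set (Fin n))) ∧
            x ∈ ({(ε i : Sym2 (S : Set (Fin n))).out.2} : Finset (S : Set (Fin n))))) ↔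
            (ε i : Sym2 (S : Set (Fin n))) = s(x, y) := by
          intro i
          have hh := hout i
          simp only [Finset.mem_singleton]
          constructor
          · intro h
            rw [← hh, Sym2.eq_iff]
            rcases h with ⟨h1, h2⟩ | ⟨h1, h2⟩
            · exact Or.inl ⟨h1.symm, h2.symm⟩
            · exact Or.inr ⟨h1.symm, h2.symm⟩
          · intro h
            rw [← hh, Sym2.eq_iff] at h
            rcases h with ⟨h1, h2⟩ | ⟨h1, h2⟩
            · exact Or.inl ⟨h1.symm, h2.symm⟩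
            · exact Or.inr ⟨h1.symm, h2.symm⟩
        refine ⟨ε.symm ⟨s(x, y), hxy⟩, (key _).2 (by rw [Equiv.apply_symm_apply]), fun j hj => ?_⟩
        have := (key j).1 hj
        rw [Equiv.eq_symm_apply]
        exact Subtype.ext this
    exact Nat.sInf_mem hne
  obtain ⟨A₀, B₀, hAB⟩ := hspec
  let star : Fin n → Finset (Fin n) := fun v => Finset.univ.filter fun w => G.Adj v w ∧ (w ∈ S ∨ v < w)
  let T := {v : Fin n // v ∉ S ∧ (star v).Nonempty}
  let A : Fin (bc (G.induce (S : Set (Fin n)))) ⊕ T → Finset (Fin n) :=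
    Sum.elim (fun i => (A₀ i).map (Function.Embedding.subtype _)) fun v => {v.1}
  let B : Fin (bc (G.induce (S : Set (Fin n)))) ⊕ T → Finset (Fin n) :=
    Sum.elim (fun i => (B₀ i).map (Function.Embedding.subtype _)) fun v => star v.1
  have hAl : ∀ i x, x ∈ A (Sum.inl i) ↔ ∃ h : x ∈ (S : Set (Fin n)), (⟨x, h⟩ : (S : Set (Fin n))) ∈ A₀ i := by
    intro i x
    simp only [A, Sum.elim_inl, Finset.mem_map, Function.Embedding.subtype_apply]
    constructor
    · rintro ⟨a, ha, rfl⟩; exact ⟨a.2, ha⟩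
    · rintro ⟨h, ha⟩; exact ⟨_, ha, rfl⟩
  have hBl : ∀ i x, x ∈ B (Sum.inl i) ↔ ∃ h : x ∈ (S : Set (Fin n)), (⟨x, h⟩ : (S : Set (Fin n))) ∈ B₀ i := by
    intro i x
    simp only [B, Sum.elim_inl, Finset.mem_map, Function.Embedding.subtype_apply]
    constructor
    · rintro ⟨a, ha, rfl⟩; exact ⟨a.2, ha⟩
    · rintro ⟨h, ha⟩; exact ⟨_, ha, rfl⟩
  have hAr : ∀ (v : T) x, x ∈ A (Sum.inr v) ↔ x = v.1 := by
    intro v x; simp [A]
  have hBr : ∀ (v : T) x, x ∈ B (Sum.inr v) ↔ G.Adj v.1 x ∧ (x ∈ S ∨ v.1 < x) := by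
    intro v x; simp [B, star]
  have key : ∀ x y, G.Adj x y → x ∉ S → (y ∈ S ∨ x < y) →
      ∃! i, (x ∈ A i ∧ y ∈ B i) ∨ (y ∈ A i ∧ x ∈ B i) := by
    intro x y hxy hx hy
    have hst : (star x).Nonempty := ⟨y, by simp only [star, Finset.mem_filter]; exact ⟨Finset.mem_univ _, hxy, hy⟩⟩
    refine ⟨Sum.inr ⟨x, hx, hst⟩, Or.inl ⟨(hAr _ _).2 rfl, (hBr _ _).2 ⟨hxy, hy⟩⟩, ?_⟩
    rintro (i | v) hi
    · exfalso
      rcases hi with ⟨h1, -⟩ | ⟨-, h1⟩
      · obtain ⟨h, -⟩ := (hAl _ _).1 h1; exact hx h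
      · obtain ⟨h, -⟩ := (hBl _ _).1 h1; exact hx h
    · rcases hi with ⟨h1, -⟩ | ⟨h1, h2⟩
      · have := (hAr _ _).1 h1
        congr 1
        exact Subtype.ext this.symm
      · exfalso
        have h3 := (hAr _ _).1 h1
        have h4 := (hBr _ _).1 h2
        rcases h4.2 with h5 | h5
        · exact hx h5
        · rcases hy with h6 | h6
          · exact v.2.1 (h3 ▸ h6)
          · rw [h3] at h6
            exact lt_asymm h5 h6
  have hle := bc_le_of G A B ?_ ?_ ?_ ?_ ?_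
  · refine hle.trans ?_
    rw [Fintype.card_sum, Fintype.card_fin]
    refine Nat.add_le_add_left ?_ _
    have h1 : Fintype.card T ≤ Fintype.card {v : Fin n // v ∈ Sᶜ} :=
      Fintype.card_le_of_injective (fun v : T => (⟨v.1, by simpa using v.2.1⟩ : {v : Fin n // v ∈ Sᶜ}))
        (fun v w h => Subtype.ext (by simpa using h))
    refine h1.trans (le_of_eq ?_)
    rw [Fintype.card_coe, Finset.card_compl, Fintype.card_fin]
  · rintro (i | v)
    · simpa [A] using hAB.nonempty_left i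
    · simp [A]
  · rintro (i | v)
    · simpa [B] using hAB.nonempty_right i
    · exact v.2.2
  · rintro (i | v)
    · rw [Finset.disjoint_left]
      intro x hx hx'
      obtain ⟨h, h1⟩ := (hAl _ _).1 hx
      obtain ⟨h', h2⟩ := (hBl _ _).1 hx'
      exact Finset.disjoint_left.1 (hAB.disjoint i) h1 h2
    · rw [Finset.disjoint_left]
      intro x hx hx'
      have h1 := (hAr _ _).1 hx
      have h2 := (hBr _ _).1 hx'
      rw [h1] at h2
      exact G.irrefl h2.1
  · rintro (i | v) x hx y hy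
    · obtain ⟨h, h1⟩ := (hAl _ _).1 hx
      obtain ⟨h', h2⟩ := (hBl _ _).1 hy
      exact hAB.complete i _ h1 _ h2
    · rw [(hAr _ _).1 hx]
      exact ((hBr _ _).1 hy).1
  · intro x y hxy
    by_cases hx : x ∈ S
    · by_cases hy : y ∈ S
      · obtain ⟨i, hi, hu⟩ := hAB.partition ⟨x, hx⟩ ⟨y, hy⟩ hxy
        refine ⟨Sum.inl i, ?_, ?_⟩
        · rcases hi with ⟨h1, h2⟩ | ⟨h1, h2⟩
          · exact Or.inl ⟨(hAl _ _).2 ⟨hx, h1⟩, (hBl _ _).2 ⟨hy, h2⟩⟩
          · exact Or.inr ⟨(hAl _ _).2 ⟨hy, h1⟩, (hBl _ _).2 ⟨hx, h2⟩⟩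
        · rintro (j | v) hj
          · rw [hu j]
            rcases hj with ⟨h1, h2⟩ | ⟨h1, h2⟩
            · obtain ⟨_, h3⟩ := (hAl _ _).1 h1
              obtain ⟨_, h4⟩ := (hBl _ _).1 h2
              exact Or.inl ⟨h3, h4⟩
            · obtain ⟨_, h3⟩ := (hAl _ _).1 h1
              obtain ⟨_, h4⟩ := (hBl _ _).1 h2
              exact Or.inr ⟨h3, h4⟩
          · exfalso
            rcases hj with ⟨h1, -⟩ | ⟨h1, -⟩
            · exact v.2.1 ((hAr _ _).1 h1 ▸ hx)
            · exact v.2.1 ((hAr _ _).1 h1 ▸ hy)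
      · obtain ⟨i, hi, hu⟩ := key y x hxy.symm hy (Or.inl hx)
        exact ⟨i, hi.symm, fun j hj => hu j hj.symm⟩
    · by_cases hy : y ∈ S
      · exact key x y hxy hx (Or.inl hy)
      · rcases lt_trichotomy x y with h | h | h
        · exact key x y hxy hx (Or.inr h)
        · exact absurd h hxy.ne
        · obtain ⟨i, hi, hu⟩ := key y x hxy.symm hy (Or.inr h)
          exact ⟨i, hi.symm, fun j hj => hu j hj.symm⟩

lemma bc_eq_zero {V : Type} (G : SimpleGraph V) (h : ∀ x y, ¬ G.Adj x y) : bc G = 0 := by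
  have := bc_le_of G (ι := Fin 0) (fun _ => ∅) (fun _ => ∅) (fun i => i.elim0) (fun i => i.elim0)
    (fun i => i.elim0) (fun i => i.elim0) (fun x y hxy => absurd hxy (h x y))
  simpa using this

lemma bc_le_of_indep {n : ℕ} (G : SimpleGraph (Fin n)) (S : Finset (Fin n))
    (h : ∀ x ∈ S, ∀ y ∈ S, ¬ G.Adj x y) : bc G ≤ n - #S := by
  have h1 := bc_le_induce G S
  rw [bc_eq_zero (G.induce (S : Set (Fin n))) (fun x y hxy => h x.1 x.2 y.1 y.2 hxy), zero_add] at h1
  exact h1

end Pool.Agent.H5.BC
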