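import Pool.Graph.R_seed8.H2BC.Final

/-! # Gaussian tails for the biclique partition number of `G(n, 1/2)` -/

set_option autoImplicit false

open Finset Classical Filter Topology H2BC

namespace Pool.Agent.H5.BC

lemma log_half (n : ℕ) (hn : 1 ≤ n) : (1 : ℝ) / 2 ≤ Real.log (n + 1) := by
  have hn1 : (1 : ℝ) ≤ n := by exact_mod_cast hn
  have h1 : Real.log 2 ≤ Real.log (n + 1) := Real.log_le_log (by norm_num) (by linarith)
  have h2 := Real.log_two_gt_d9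
  linarith

lemma exp_neg_one_le : Real.exp (-1) ≤ 1 / 2 := by
  rw [Real.exp_neg, inv_le_comm₀ (Real.exp_pos _) (by norm_num)]
  have := Real.add_one_le_exp (1 : ℝ)
  norm_num at this ⊢
  linarith

/-- the failure probability of `GoodU` at level `t ≥ log (n + 1)` -/
lemma tailU (n a D : ℕ) (hn : 1 ≤ n) (t : ℝ) (ht : Real.log (n + 1) ≤ t) :
    Pr (fun ω : Sym2 (Fin n) → Bool =>
      ¬ GoodU n a D (2 ^ 67 * ((1 + (a + 1) * D : ℕ) + 2) * t) ω) ≤ Real.exp (-t ^ 2 - 1) := by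
  set c : ℕ := 1 + (a + 1) * D with hc
  set K : ℝ := 2 ^ 67 * ((c : ℝ) + 2) * t with hK
  have hn1 : (1 : ℝ) ≤ n := by exact_mod_cast hn
  have hlog := log_half n hn
  have ht0 : (1 : ℝ) / 2 ≤ t := hlog.trans ht
  have hc0 : (0 : ℝ) ≤ c := by positivity
  have hK8 : 8 * t ≤ K := by
    rw [hK]
    have : (8 : ℝ) ≤ 2 ^ 67 * ((c : ℝ) + 2) := by
      have h3 : (2 : ℝ) ^ 67 * 2 ≤ (2 : ℝ) ^ 67 * ((c : ℝ) + 2) :=
        mul_le_mul_of_nonneg_left (by linarith) (by positivity)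
      norm_num at h3 ⊢
      linarith
    exact mul_le_mul_of_nonneg_right this (by linarith)
  have h1 : Pr (fun ω : Sym2 (Fin n) → Bool => ¬ GoodU n a D K ω) ≤
      Pr (fun ω : Sym2 (Fin n) → Bool => ∃ ρ ∈ (Finset.range (n + 1)).filter (fun ρ : ℕ => K ≤ ρ),
        ∃ e : Fin ρ → Fin n, ∃ F : Fin ρ → Finset (Finset (Fin n)),
      (∀ i, F i ∈ fams n a D) ∧ Cond e F ∧
      (#((prs ρ).filter (fun p => UU e F ω p)) : ℝ) < (1 / 2) ^ 67 * (ρ : ℝ) ^ 2) := by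
    refine Pr_mono fun ω hω => ?_
    unfold GoodU at hω
    push Not at hω
    obtain ⟨ρ, hρ, e, F, hF, hcond, hlt⟩ := hω
    refine ⟨ρ, Finset.mem_filter.2 ⟨?_, hρ⟩, e, F, hF, hcond, hlt⟩
    have hinj : Function.Injective e := by
      intro i j hij
      by_contra hne
      exact Finset.disjoint_left.1 (hcond.disj i j hne) (self_mem_hull _ _)
        (hij ▸ self_mem_hull _ _)
    have := Fintype.card_le_of_injective e hinj
    simp only [Fintype.card_fin] at this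
    exact Finset.mem_range.2 (by omega)
  refine h1.trans ((Pr_union _ _).trans ?_)
  have h2 : ∀ ρ ∈ (Finset.range (n + 1)).filter (fun ρ : ℕ => K ≤ ρ),
      Pr (fun ω : Sym2 (Fin n) → Bool =>
        ∃ e : Fin ρ → Fin n, ∃ F : Fin ρ → Finset (Finset (Fin n)),
      (∀ i, F i ∈ fams n a D) ∧ Cond e F ∧
      (#((prs ρ).filter (fun p => UU e F ω p)) : ℝ) < (1 / 2) ^ 67 * (ρ : ℝ) ^ 2) ≤
      Real.exp (-(t ^ 2 + t + 1)) := by
    intro ρ hρ
    have hρK := (Finset.mem_filter.1 hρ).2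
    have hρ8 : 8 * t ≤ ρ := hK8.trans hρK
    have hρ2 : (2 : ℝ) ≤ ρ := by linarith
    have hρ2' : 2 ≤ ρ := by exact_mod_cast hρ2
    refine (Pr_badU n ρ a D hn hρ2').trans ?_
    rw [← hc, ← pow_mul]
    have e1 : ((n : ℝ) + 1) ^ (c * ρ) = Real.exp ((c * ρ : ℕ) * Real.log (n + 1)) := by
      rw [Real.exp_nat_mul, Real.exp_log (by positivity)]
    rw [e1, ← Real.exp_add]
    apply Real.exp_le_exp.2
    push_cast
    have e3 : (1 / 2 : ℝ) ^ 67 * K = ((c : ℝ) + 2) * t := by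
      rw [hK, ← mul_assoc, ← mul_assoc, ← mul_pow]; norm_num
    have e4 : (1 / 2 : ℝ) ^ 67 * K * ρ ≤ (1 / 2 : ℝ) ^ 67 * (ρ : ℝ) ^ 2 := by
      rw [sq, mul_assoc]
      exact mul_le_mul_of_nonneg_left (mul_le_mul_of_nonneg_right hρK (by positivity)) (by positivity)
    rw [e3] at e4
    have e5 : (c : ℝ) * ρ * Real.log (n + 1) ≤ (c : ℝ) * ρ * t :=
      mul_le_mul_of_nonneg_left ht (by positivity)
    have e6 : 2 * t * (8 * t) ≤ 2 * t * ρ := mul_le_mul_of_nonneg_left hρ8 (by linarith)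
    nlinarith
  refine (Finset.sum_le_sum h2).trans ?_
  rw [Finset.sum_const, nsmul_eq_mul]
  have h3 : (#((Finset.range (n + 1)).filter (fun ρ : ℕ => K ≤ ρ)) : ℝ) ≤ Real.exp t := by
    have := Finset.card_filter_le (Finset.range (n + 1)) (fun ρ : ℕ => K ≤ ρ)
    rw [Finset.card_range] at this
    have h4 : ((n : ℝ) + 1) ≤ Real.exp t := by
      rw [← Real.exp_log (show (0 : ℝ) < n + 1 by positivity)]
      exact Real.exp_le_exp.2 ht
    refine le_trans ?_ h4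
    exact_mod_cast this
  calc _ ≤ Real.exp t * Real.exp (-(t ^ 2 + t + 1)) :=
        mul_le_mul_of_nonneg_right h3 (Real.exp_pos _).le
    _ = _ := by rw [← Real.exp_add]; congr 1; ring

/-- the failure probability of `GoodP` at level `t ≥ log (n + 1)` -/
lemma tailP (n l : ℕ) (hn : 1 ≤ n) (hl : Real.exp (-(l : ℝ)) ≤ (1 / 2) ^ 85 / 64) (hl1 : 1 ≤ l)
    (t : ℝ) (ht : Real.log (n + 1) ≤ t) :
    Pr (fun ω : Sym2 (Fin n) → Bool =>
      ¬ GoodP n l ((1 / 2) ^ 85) ((1 / 2) ^ 85) (2 ^ 85 * (128 * (l : ℝ) ^ 2) * t) ω) ≤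
      Real.exp (-t ^ 2 - 1) := by
  set K : ℝ := 2 ^ 85 * (128 * (l : ℝ) ^ 2) * t with hK
  have hn1 : (1 : ℝ) ≤ n := by exact_mod_cast hn
  have hl1' : (1 : ℝ) ≤ l := by exact_mod_cast hl1
  have hlog := log_half n hn
  have ht0 : (1 : ℝ) / 2 ≤ t := hlog.trans ht
  have hpow : ((1 : ℝ) / 2) ^ 85 * 2 ^ 85 = 1 := by rw [← mul_pow]; norm_num
  have hK1 : 2 ^ 85 * (64 * (l : ℝ) ^ 2) ≤ K := by
    have : (2 : ℝ) ^ 85 * (128 * (l : ℝ) ^ 2) * (1 / 2) ≤ K := by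
      rw [hK]; exact mul_le_mul_of_nonneg_left ht0 (by positivity)
    linarith
  have hK2 : 2 ^ 85 * 128 * t ≤ K := by
    rw [hK]
    have h3 : (0 : ℝ) ≤ t := by linarith
    have h4 : (1 : ℝ) ≤ (l : ℝ) ^ 2 := one_le_pow₀ hl1'
    have h5 : (2 : ℝ) ^ 85 * 128 ≤ 2 ^ 85 * (128 * (l : ℝ) ^ 2) :=
      mul_le_mul_of_nonneg_left (by linarith) (by positivity)
    exact mul_le_mul_of_nonneg_right h5 h3
  have h1 : Pr (fun ω : Sym2 (Fin n) → Bool => ¬ GoodP n l ((1 / 2) ^ 85) ((1 / 2) ^ 85) K ω) ≤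
      Pr (fun ω : Sym2 (Fin n) → Bool => ∃ m ∈ (Finset.range (n + 1)).filter (fun m : ℕ => K ≤ m),
        ∃ M : Finset (Fin n), #M = m ∧ ∃ t ≤ m,
      ∃ P Q : Fin t → Finset (Fin n), CondP M l ((1 / 2) ^ 85) P Q ∧
      (∀ i, ∀ x ∈ P i, ∀ y ∈ Q i, ω s(x, y) = true) ∧
      ((1 / 2) ^ 85) * (m : ℝ) ^ 2 < ∑ i, (#(P i) : ℝ) * #(Q i)) := by
    refine Pr_mono fun ω hω => ?_
    unfold GoodP at hω
    push Not at hω
    obtain ⟨M, hKM, t, ht, P, Q, hc, hcomp, hlt⟩ := hω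
    refine ⟨#M, Finset.mem_filter.2 ⟨?_, hKM⟩, M, rfl, t, ht, P, Q, hc, hcomp, hlt⟩
    have := Finset.card_le_univ M
    simp only [Fintype.card_fin] at this
    exact Finset.mem_range.2 (by omega)
  refine h1.trans ((Pr_union _ _).trans ?_)
  have h2 : ∀ m ∈ (Finset.range (n + 1)).filter (fun m : ℕ => K ≤ m),
      Pr (fun ω : Sym2 (Fin n) → Bool => ∃ M : Finset (Fin n), #M = m ∧ ∃ t ≤ m,
      ∃ P Q : Fin t → Finset (Fin n), CondP M l ((1 / 2) ^ 85) P Q ∧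
      (∀ i, ∀ x ∈ P i, ∀ y ∈ Q i, ω s(x, y) = true) ∧
      ((1 / 2) ^ 85) * (m : ℝ) ^ 2 < ∑ i, (#(P i) : ℝ) * #(Q i)) ≤
      Real.exp (-(t ^ 2 + t + 1)) := by
    intro m hm
    have hmK := (Finset.mem_filter.1 hm).2
    have hmn : m ≤ n := by
      have := Finset.mem_range.1 (Finset.mem_filter.1 hm).1
      omega
    have hmn' : (m : ℝ) ≤ n := by exact_mod_cast hmn
    have hm64 : 64 * (l : ℝ) ^ 2 ≤ (1 / 2) ^ 85 * m := by
      have := mul_le_mul_of_nonneg_left (hK1.trans hmK) (show (0 : ℝ) ≤ (1 / 2) ^ 85 by positivity)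
      rw [← mul_assoc, hpow, one_mul] at this
      exact this
    have hmlog : 128 * t ≤ (1 / 2) ^ 85 * m := by
      have := mul_le_mul_of_nonneg_left (hK2.trans hmK) (show (0 : ℝ) ≤ (1 / 2) ^ 85 by positivity)
      rw [← mul_assoc, ← mul_assoc, hpow, one_mul] at this
      exact this
    have h5 : ((1 : ℝ) / 2) ^ 85 ≤ 1 := pow_le_one₀ (by norm_num) (by norm_num)
    have h6 : (1 / 2 : ℝ) ^ 85 * m ≤ 1 * m := mul_le_mul_of_nonneg_right h5 (by positivity)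
    have hm8 : 128 * t ≤ m := by linarith
    have hm1 : (1 : ℝ) ≤ m := by linarith
    refine (Pr_badP n m l ((1 / 2) ^ 85) ((1 / 2) ^ 85) hl hm64).trans ?_
    have e1 : ((n : ℝ) + 1) ^ m = Real.exp (m * Real.log (n + 1)) := by
      rw [Real.exp_nat_mul, Real.exp_log (by positivity)]
    have e3 : (m : ℝ) + 1 ≤ Real.exp (Real.log (n + 1)) := by
      rw [Real.exp_log (by positivity)]; linarith
    calc _ ≤ Real.exp (m * Real.log (n + 1)) * (Real.exp (Real.log (n + 1)) *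
          Real.exp (-((1 / 2) ^ 85 * (m : ℝ) ^ 2 / 4))) := by
          rw [e1]
          exact mul_le_mul_of_nonneg_left (mul_le_mul_of_nonneg_right e3 (Real.exp_pos _).le)
            (Real.exp_pos _).le
      _ = Real.exp (m * Real.log (n + 1) + (Real.log (n + 1) + -((1 / 2) ^ 85 * (m : ℝ) ^ 2 / 4))) := by
          rw [← Real.exp_add, ← Real.exp_add]
      _ ≤ _ := by
          apply Real.exp_le_exp.2
          have e4 : 128 * t * m ≤ (1 / 2) ^ 85 * m * m :=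
            mul_le_mul_of_nonneg_right hmlog (by positivity)
          have e5 : (m : ℝ) * Real.log (n + 1) ≤ m * t := mul_le_mul_of_nonneg_left ht (by positivity)
          have e6 : t * (128 * t) ≤ t * m := mul_le_mul_of_nonneg_left hm8 (by linarith)
          have e7 : t * 1 ≤ t * m := mul_le_mul_of_nonneg_left hm1 (by linarith)
          nlinarith
  refine (Finset.sum_le_sum h2).trans ?_
  rw [Finset.sum_const, nsmul_eq_mul]
  have h3 : (#((Finset.range (n + 1)).filter (fun m : ℕ => K ≤ m)) : ℝ) ≤ Real.exp t := by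
    have := Finset.card_filter_le (Finset.range (n + 1)) (fun m : ℕ => K ≤ m)
    rw [Finset.card_range] at this
    have h4 : ((n : ℝ) + 1) ≤ Real.exp t := by
      rw [← Real.exp_log (show (0 : ℝ) < n + 1 by positivity)]
      exact Real.exp_le_exp.2 ht
    refine le_trans ?_ h4
    exact_mod_cast this
  calc _ ≤ Real.exp t * Real.exp (-(t ^ 2 + t + 1)) :=
        mul_le_mul_of_nonneg_right h3 (Real.exp_pos _).le
    _ = _ := by rw [← Real.exp_add]; congr 1; ring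

/-- the tail bound, for all biclique partitions at once -/
theorem tail : ∃ C : ℝ, 0 < C ∧ ∀ n : ℕ, 1 ≤ n → ∀ t : ℝ, Real.log (n + 1) ≤ t →
    Pr (fun ω : Sym2 (Fin n) → Bool => (bc (gr ω) : ℝ) + C * t < n) ≤ Real.exp (-t ^ 2) := by
  obtain ⟨l, hl⟩ : ∃ l : ℕ, l = 91 := ⟨_, rfl⟩
  have hl1 : 1 ≤ l := by rw [hl]; norm_num
  obtain ⟨a, ha⟩ : ∃ a : ℕ, a = 16 * l := ⟨_, rfl⟩
  obtain ⟨D, hD⟩ : ∃ D : ℕ, D = a ^ 2 * 2 ^ 85 := ⟨_, rfl⟩
  set cU : ℝ := 2 ^ 67 * ((1 + (a + 1) * D : ℕ) + 2) with hcU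
  set cP : ℝ := 2 ^ 85 * (128 * (l : ℝ) ^ 2) with hcP
  set q : ℝ := ((8 * ((1 + a * D) * (1 + a * D)) : ℕ) : ℝ) with hq
  set C1 : ℝ := cP + 112 * q * cU with hC1
  have hcU0 : 0 < cU := by positivity
  have hq0 : 0 < q := by rw [hq]; positivity
  have hcP0 : 0 < cP := by rw [hcP, hl]; positivity
  have hC10 : 0 < C1 := by positivity
  refine ⟨C1, hC10, fun n hn t ht => ?_⟩
  have hexp : Real.exp (-(l : ℝ)) ≤ (1 / 2) ^ 85 / 64 := by
    have h2 : Real.exp (-(l : ℝ)) = Real.exp (-1) ^ l := by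
      rw [← Real.exp_nat_mul]; congr 1; ring
    rw [h2, hl]
    calc Real.exp (-1) ^ 91 ≤ (1 / 2) ^ 91 := pow_le_pow_left₀ (Real.exp_pos _).le exp_neg_one_le _
      _ = _ := by norm_num
  have ht0 : (0 : ℝ) ≤ t := by linarith [log_half n hn]
  have e1 := tailU n a D hn t ht
  have e2 := tailP n l hn hexp hl1 t ht
  rw [← hcU] at e1
  rw [← hcP] at e2
  have e4 : Pr (fun ω : Sym2 (Fin n) → Bool => (bc (gr ω) : ℝ) + C1 * t < n) ≤
      Pr (fun ω : Sym2 (Fin n) → Bool => ¬ GoodU n a D (cU * t) ω ∨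
        ¬ GoodP n l ((1 / 2) ^ 85) ((1 / 2) ^ 85) (cP * t) ω) := by
    refine Pr_mono fun ω hω => ?_
    by_contra hcon
    push Not at hcon
    obtain ⟨hU, hP⟩ := hcon
    obtain ⟨A, B, hAB⟩ := bc_spec (gr ω)
    have hmain := lower hAB.isBP l a D hl1 ha hD (cP * t) (cU * t) (C1 * t) hP
      (by
        rw [hC1]
        have : 0 ≤ 112 * q * cU * t :=
          mul_nonneg (mul_nonneg (mul_nonneg (by norm_num) hq0.le) hcU0.le) ht0
        linarith) hU
      (by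
        rw [hC1]
        have : 0 ≤ cP * t := mul_nonneg hcP0.le ht0
        linarith)
      (mul_nonneg hC10.le ht0)
    linarith
  refine e4.trans ((Pr_or _ _).trans ?_)
  have e5 : Real.exp (-t ^ 2 - 1) = Real.exp (-t ^ 2) * Real.exp (-1) := by
    rw [← Real.exp_add]; congr 1
  have e6 := exp_neg_one_le
  have e7 := Real.exp_pos (-t ^ 2)
  nlinarith

end Pool.Agent.H5.BC
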